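import Mathlib

/-!
Non-freeness criteria for the group generated by `U al`, `L al`, `al = p/n`.
Level one: two distinct integer divisors of `n^2` congruent modulo `p^2`.
Level two: `n^2 = y + p^2 M` with `y, M` nonzero and two distinct integer divisors of `M`
congruent modulo `y`.
-/

namespace Pool.Agent.Lib.MP_b4205f_al.H22

open Matrix

/-- upper unipotent -/
def U (a : ℚ) : SpecialLinearGroup (Fin 2) ℚ := ⟨!![1, a; 0, 1], by simp [det_fin_two]⟩

/-- lower unipotent -/
def L (a : ℚ) : SpecialLinearGroup (Fin 2) ℚ := ⟨!![1, 0; a, 1], by simp [det_fin_two]⟩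

/-- coercion to matrices -/
def mat (A : SpecialLinearGroup (Fin 2) ℚ) : Matrix (Fin 2) (Fin 2) ℚ := A

lemma mat_mul (A B : SpecialLinearGroup (Fin 2) ℚ) : mat (A * B) = mat A * mat B := rfl

lemma mat_one : mat 1 = 1 := rfl

lemma mat_inj {A B : SpecialLinearGroup (Fin 2) ℚ} (h : mat A = mat B) : A = B := Subtype.ext h

lemma mat_U (a : ℚ) : mat (U a) = !![1, a; 0, 1] := rfl

lemma mat_L (a : ℚ) : mat (L a) = !![1, 0; a, 1] := rfl

lemma U_mul (a b : ℚ) : U a * U b = U (a + b) := by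
  apply mat_inj
  simp only [mat_mul, mat_U]
  ext i j
  fin_cases i <;> fin_cases j <;> simp [Matrix.mul_apply, Fin.sum_univ_two, add_comm]

lemma L_mul (a b : ℚ) : L a * L b = L (a + b) := by
  apply mat_inj
  simp only [mat_mul, mat_L]
  ext i j
  fin_cases i <;> fin_cases j <;> simp [Matrix.mul_apply, Fin.sum_univ_two]

lemma U_zero : U 0 = 1 := by
  apply mat_inj
  simp only [mat_one, mat_U]
  ext i j
  fin_cases i <;> fin_cases j <;> simp

lemma L_zero : L 0 = 1 := by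
  apply mat_inj
  simp only [mat_one, mat_L]
  ext i j
  fin_cases i <;> fin_cases j <;> simp

lemma U_inv (a : ℚ) : (U a)⁻¹ = U (-a) := by
  rw [inv_eq_iff_mul_eq_one, U_mul, add_neg_cancel, U_zero]

lemma L_inv (a : ℚ) : (L a)⁻¹ = L (-a) := by
  rw [inv_eq_iff_mul_eq_one, L_mul, add_neg_cancel, L_zero]

lemma U_pow (a : ℚ) (k : ℕ) : (U a) ^ k = U (k * a) := by
  induction k with
  | zero => simp [U_zero]
  | succ k ih => rw [pow_succ, ih, U_mul]; congr 1; push_cast; ring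

lemma L_pow (a : ℚ) (k : ℕ) : (L a) ^ k = L (k * a) := by
  induction k with
  | zero => simp [L_zero]
  | succ k ih => rw [pow_succ, ih, L_mul]; congr 1; push_cast; ring

lemma U_zpow (a : ℚ) (k : ℤ) : (U a) ^ k = U (k * a) := by
  cases k with
  | ofNat k => simpa using U_pow a k
  | negSucc k =>
    rw [zpow_negSucc, U_pow, U_inv]
    congr 1
    push_cast
    ring

lemma L_zpow (a : ℚ) (k : ℤ) : (L a) ^ k = L (k * a) := by
  cases k with
  | ofNat k => simpa using L_pow a k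
  | negSucc k =>
    rw [zpow_negSucc, L_pow, L_inv]
    congr 1
    push_cast
    ring

lemma mat_det (W : SpecialLinearGroup (Fin 2) ℚ) :
    mat W 0 0 * mat W 1 1 - mat W 0 1 * mat W 1 0 = 1 := by
  rw [← det_fin_two]
  exact W.2

/-- A lower triangular `W` conjugates `L b` to a matrix commuting with `L b`. -/
lemma conj_commute_of_entry {W : SpecialLinearGroup (Fin 2) ℚ} {b : ℚ}
    (h01 : mat W 0 1 = 0) : W * L b * W⁻¹ * L b = L b * (W * L b * W⁻¹) := by
  have hdet := mat_det W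
  have h11 : mat W 1 1 ≠ 0 := by
    intro h; rw [h01, h] at hdet; simp at hdet
  have key : W * L b = L (b * mat W 1 1 ^ 2) * W := by
    apply mat_inj
    rw [mat_mul, mat_mul, mat_L, mat_L]
    ext i j
    fin_cases i <;> fin_cases j
    · simp [Matrix.mul_apply, Fin.sum_univ_two, h01]
    · simp [Matrix.mul_apply, Fin.sum_univ_two, h01]
    · simp [Matrix.mul_apply, Fin.sum_univ_two, h01]
      rw [h01] at hdet
      linear_combination (-b * mat W 1 1) * hdet
    · simp [Matrix.mul_apply, Fin.sum_univ_two, h01]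
  rw [key, mul_inv_cancel_right, L_mul, L_mul, add_comm]

/-- If the conjugate of `L b` by `W` commutes with `L b`, then `W` is lower triangular. -/
lemma entry_of_conj_commute {W : SpecialLinearGroup (Fin 2) ℚ} {b : ℚ} (hb : b ≠ 0)
    (h : W * L b * W⁻¹ * L b = L b * (W * L b * W⁻¹)) : mat W 0 1 = 0 := by
  set V := W * L b * W⁻¹ with hV
  have h1 : mat V 0 1 = 0 := by
    have h1 := congrArg (fun M : SpecialLinearGroup (Fin 2) ℚ => mat M 0 0) h
    simp only [mat_mul, mat_L] at h1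
    simp [Matrix.mul_apply, Fin.sum_univ_two] at h1
    rcases h1 with h1 | h1
    · exact h1
    · exact absurd h1 hb
  have h2 : V * W = W * L b := by rw [hV]; group
  have e01 := congrArg (fun M : SpecialLinearGroup (Fin 2) ℚ => mat M 0 0) h2
  have e11 := congrArg (fun M : SpecialLinearGroup (Fin 2) ℚ => mat M 0 1) h2
  simp only [mat_mul, mat_L] at e01 e11
  simp [Matrix.mul_apply, Fin.sum_univ_two, h1] at e01 e11
  by_contra hne
  have h3 : mat V 0 0 = 1 := by
    have h5 : (mat V 0 0 - 1) * mat W 0 1 = 0 := by linear_combination e11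
    rcases mul_eq_zero.mp h5 with h | h
    · linarith
    · exact absurd h hne
  rw [h3] at e01
  have h4 : mat W 0 1 * b = 0 := by linarith
  rcases mul_eq_zero.mp h4 with h | h
  · exact hne h
  · exact hb h

/-- General criterion. -/
theorem not_free_of_word (w : FreeGroup (Fin 2)) (al : ℚ)
    (h0 : mat (FreeGroup.lift ![U al, L al] w) 0 1 = 0)
    {t : ℚ} (ht : t ≠ 0) (h1 : mat (FreeGroup.lift ![U 1, L t] w) 0 1 ≠ 0) :
    ¬ Function.Injective (FreeGroup.lift ![U al, L al]) := by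
  intro hinj
  have hcomm : w * FreeGroup.of 1 * w⁻¹ * FreeGroup.of 1 =
      FreeGroup.of 1 * (w * FreeGroup.of 1 * w⁻¹) := by
    apply hinj
    simp only [map_mul, map_inv, FreeGroup.lift_apply_of, Matrix.cons_val_one,
      Matrix.cons_val_zero]
    exact conj_commute_of_entry h0
  have h2 := congrArg (FreeGroup.lift ![U 1, L t]) hcomm
  simp only [map_mul, map_inv, FreeGroup.lift_apply_of, Matrix.cons_val_one,
    Matrix.cons_val_zero] at h2
  exact h1 (entry_of_conj_commute ht h2)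

/-- the word `A^c B^b A^a` -/
def w3 {G : Type*} [Group G] (A B : G) (a b c : ℤ) : G := A ^ c * B ^ b * A ^ a

/-- the word `A^c3 B^b2 A^c2 B^b1 A^c1` -/
def w5 {G : Type*} [Group G] (A B : G) (c1 b1 c2 b2 c3 : ℤ) : G :=
  A ^ c3 * B ^ b2 * A ^ c2 * B ^ b1 * A ^ c1

lemma map_w3 {G H : Type*} [Group G] [Group H] (f : G →* H) (A B : G) (a b c : ℤ) :
    f (w3 A B a b c) = w3 (f A) (f B) a b c := by
  simp [w3]

lemma map_w5 {G H : Type*} [Group G] [Group H] (f : G →* H) (A B : G) (c1 b1 c2 b2 c3 : ℤ) :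
    f (w5 A B c1 b1 c2 b2 c3) = w5 (f A) (f B) c1 b1 c2 b2 c3 := by
  simp [w5]

lemma w3_entry (u v : ℚ) (a b c : ℤ) :
    mat (w3 (U u) (L v) a b c) 0 1 = u * (a + c * (1 + u * v * b * a)) := by
  rw [w3, U_zpow, U_zpow, L_zpow]
  simp only [mat_mul, mat_U, mat_L]
  simp [Matrix.mul_apply, Fin.sum_univ_two]
  ring

lemma w5_entry (u v : ℚ) (c1 b1 c2 b2 c3 : ℤ) :
    mat (w5 (U u) (L v) c1 b1 c2 b2 c3) 0 1 =
      u * ((c1 + c2 * (1 + u * v * b1 * c1)) + c3 * ((1 + u * v * b1 * c1) +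
        u * v * b2 * (c1 + c2 * (1 + u * v * b1 * c1)))) := by
  rw [w5, U_zpow, U_zpow, U_zpow, L_zpow, L_zpow]
  simp only [mat_mul, mat_U, mat_L]
  simp [Matrix.mul_apply, Fin.sum_univ_two]
  ring

/-- Three syllables. -/
theorem not_free_w3 {al : ℚ} {a b c : ℤ} (ha : a ≠ 0) (hb : b ≠ 0) (hc : c ≠ 0)
    (h : (a : ℚ) + c * (1 + al * al * b * a) = 0) :
    ¬ Function.Injective (FreeGroup.lift ![U al, L al]) := by
  have h0 : mat (FreeGroup.lift ![U al, L al]
      (w3 (FreeGroup.of (0 : Fin 2)) (FreeGroup.of 1) a b c)) 0 1 = 0 := by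
    rw [map_w3]
    simp only [FreeGroup.lift_apply_of, Matrix.cons_val_zero, Matrix.cons_val_one]
    rw [w3_entry, h, mul_zero]
  by_cases h1 : mat (FreeGroup.lift ![U 1, L 1]
      (w3 (FreeGroup.of (0 : Fin 2)) (FreeGroup.of 1) a b c)) 0 1 = 0
  · by_cases h2 : mat (FreeGroup.lift ![U 1, L 2]
        (w3 (FreeGroup.of (0 : Fin 2)) (FreeGroup.of 1) a b c)) 0 1 = 0
    · exfalso
      rw [map_w3] at h1 h2
      simp only [FreeGroup.lift_apply_of, Matrix.cons_val_zero, Matrix.cons_val_one] at h1 h2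
      rw [w3_entry] at h1 h2
      have h3 : (a : ℚ) * b * c = 0 := by linear_combination h2 - h1
      have h4 : a * b * c = 0 := by exact_mod_cast h3
      exact (mul_ne_zero (mul_ne_zero ha hb) hc) h4
    · exact not_free_of_word _ al h0 two_ne_zero h2
  · exact not_free_of_word _ al h0 one_ne_zero h1

/-- Five syllables. -/
theorem not_free_w5 {al : ℚ} {c1 b1 c2 b2 c3 : ℤ} (h1 : c1 ≠ 0) (h2 : b1 ≠ 0) (h3 : c2 ≠ 0)
    (h4 : b2 ≠ 0) (h5 : c3 ≠ 0)
    (h : ((c1 : ℚ) + c2 * (1 + al * al * b1 * c1)) + c3 * ((1 + al * al * b1 * c1) +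
        al * al * b2 * (c1 + c2 * (1 + al * al * b1 * c1))) = 0) :
    ¬ Function.Injective (FreeGroup.lift ![U al, L al]) := by
  have h0 : mat (FreeGroup.lift ![U al, L al]
      (w5 (FreeGroup.of (0 : Fin 2)) (FreeGroup.of 1) c1 b1 c2 b2 c3)) 0 1 = 0 := by
    rw [map_w5]
    simp only [FreeGroup.lift_apply_of, Matrix.cons_val_zero, Matrix.cons_val_one]
    rw [w5_entry, h, mul_zero]
  have hw : ∀ t : ℚ, mat (FreeGroup.lift ![U 1, L t]
      (w5 (FreeGroup.of (0 : Fin 2)) (FreeGroup.of 1) c1 b1 c2 b2 c3)) 0 1 =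
      ((c1 : ℚ) + c2 * (1 + t * b1 * c1)) + c3 * ((1 + t * b1 * c1) +
        t * b2 * (c1 + c2 * (1 + t * b1 * c1))) := by
    intro t
    rw [map_w5]
    simp only [FreeGroup.lift_apply_of, Matrix.cons_val_zero, Matrix.cons_val_one]
    rw [w5_entry]
    ring
  by_cases e1 : mat (FreeGroup.lift ![U 1, L 1]
      (w5 (FreeGroup.of (0 : Fin 2)) (FreeGroup.of 1) c1 b1 c2 b2 c3)) 0 1 = 0
  · by_cases e2 : mat (FreeGroup.lift ![U 1, L 2]
        (w5 (FreeGroup.of (0 : Fin 2)) (FreeGroup.of 1) c1 b1 c2 b2 c3)) 0 1 = 0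
    · by_cases e3 : mat (FreeGroup.lift ![U 1, L 3]
        (w5 (FreeGroup.of (0 : Fin 2)) (FreeGroup.of 1) c1 b1 c2 b2 c3)) 0 1 = 0
      · exfalso
        rw [hw] at e1 e2 e3
        have h3 : (c1 : ℚ) * b1 * c2 * b2 * c3 = 0 := by
          linear_combination (1/2) * (e1 - 2 * e2 + e3)
        have h4 : c1 * b1 * c2 * b2 * c3 = 0 := by exact_mod_cast h3
        simp_all
      · exact not_free_of_word _ al h0 three_ne_zero e3
    · exact not_free_of_word _ al h0 two_ne_zero e2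
  · exact not_free_of_word _ al h0 one_ne_zero e1

/-- Level one criterion: `d, d'` distinct divisors of `n^2` congruent modulo `p^2`. -/
theorem not_free_level1 {p n : ℤ} (hn : n ≠ 0) {d d' k k' b : ℤ} (hd : n ^ 2 = d * k)
    (hd' : n ^ 2 = d' * k') (hb : d' - d = p ^ 2 * b) (hne : d ≠ d') :
    ¬ Function.Injective (FreeGroup.lift ![U ((p : ℚ) / n), L ((p : ℚ) / n)]) := by
  have hnQ : (n : ℚ) ≠ 0 := by exact_mod_cast hn
  have hn2 : n ^ 2 ≠ 0 := pow_ne_zero 2 hn
  have hk : k ≠ 0 := by rintro rfl; simp at hd; exact hn hd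
  have hk' : k' ≠ 0 := by rintro rfl; simp at hd'; exact hn hd'
  have hb0 : b ≠ 0 := by
    rintro rfl
    apply hne
    linarith
  refine not_free_w3 (a := k) (b := b) (c := -k') hk hb0 (neg_ne_zero.mpr hk') ?_
  have hdQ : (n : ℚ) ^ 2 = d * k := by exact_mod_cast hd
  have hdQ' : (n : ℚ) ^ 2 = d' * k' := by exact_mod_cast hd'
  have hbQ : (d' : ℚ) - d = p ^ 2 * b := by exact_mod_cast hb
  push_cast
  field_simp
  linear_combination ((k : ℚ) * k') * hbQ + k * hdQ' - k' * hdQ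

/-- Level two criterion: `n^2 = y + p^2 M`, `v, v'` distinct divisors of `M` congruent
modulo `y`. -/
theorem not_free_level2 {p n : ℤ} (hn : n ≠ 0) {y M v v' m m' g : ℤ}
    (hM : M ≠ 0) (h : n ^ 2 = y + p ^ 2 * M) (hv : M = v * m) (hv' : M = v' * m')
    (hg : v' - v = y * g) (hne : v ≠ v') :
    ¬ Function.Injective (FreeGroup.lift ![U ((p : ℚ) / n), L ((p : ℚ) / n)]) := by
  have hnQ : (n : ℚ) ≠ 0 := by exact_mod_cast hn
  have hn2 : n ^ 2 ≠ 0 := pow_ne_zero 2 hn
  have hg0 : g ≠ 0 := by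
    rintro rfl
    apply hne
    linarith
  have hv0 : v ≠ 0 := by rintro rfl; simp at hv; exact hM hv
  have hm0 : m ≠ 0 := by rintro rfl; simp at hv; exact hM hv
  have hv0' : v' ≠ 0 := by rintro rfl; simp at hv'; exact hM hv'
  have hm0' : m' ≠ 0 := by rintro rfl; simp at hv'; exact hM hv'
  refine not_free_w5 (c1 := v) (b1 := -m) (c2 := n ^ 2 * g) (b2 := m') (c3 := -v')
    hv0 (neg_ne_zero.mpr hm0) (mul_ne_zero hn2 hg0) hm0' (neg_ne_zero.mpr hv0') ?_
  have hQ : (n : ℚ) ^ 2 = y + p ^ 2 * M := by exact_mod_cast h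
  have hvQ : (M : ℚ) = v * m := by exact_mod_cast hv
  have hvQ' : (M : ℚ) = v' * m' := by exact_mod_cast hv'
  have hgQ : (v' : ℚ) - v = y * g := by exact_mod_cast hg
  have e1 : (1 : ℚ) + (p : ℚ) / n * (p / n) * ((-m : ℤ) : ℚ) * v = y / n ^ 2 := by
    push_cast
    field_simp
    linear_combination hQ + (p : ℚ) ^ 2 * hvQ
  have e2 : (v : ℚ) + ((n ^ 2 * g : ℤ) : ℚ) * (y / n ^ 2) = v' := by
    push_cast
    field_simp
    linear_combination -hgQ
  have e3 : (y : ℚ) / n ^ 2 + (p : ℚ) / n * (p / n) * m' * v' = 1 := by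
    field_simp
    linear_combination -hQ - (p : ℚ) ^ 2 * hvQ'
  rw [e1, e2, e3]
  push_cast
  ring

end Pool.Agent.Lib.MP_b4205f_al.H22
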