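import Mathlib

/-!
For every `k` and every `eps > 0` there is `C` such that at most `eps X + C` of the numbers
`m < X` have fewer than `k` prime divisors.
-/

namespace Pool.Agent.Lib.MP_b4205f_al.H22

open Finset

/-- finite sets of primes beyond any bound with large reciprocal sum -/
lemma exists_block (N : ℕ) (Λ : ℝ) :
    ∃ B : Finset ℕ, (∀ q ∈ B, q.Prime ∧ N < q) ∧ Λ ≤ ∑ q ∈ B, (1 : ℝ) / q := by
  set f : ℕ → ℝ := Set.indicator {p : ℕ | p.Prime} (fun n : ℕ => (1 : ℝ) / n) with hf
  have hf0 : ∀ n, 0 ≤ f n := fun n => Set.indicator_nonneg (fun n _ => by positivity) n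
  have h1 := (not_summable_iff_tendsto_nat_atTop_of_nonneg hf0).mp not_summable_one_div_on_primes
  obtain ⟨M, hM⟩ := (Filter.tendsto_atTop.mp h1 (Λ + ∑ i ∈ range (N + 1), f i)).exists
  refine ⟨(range M).filter (fun q => q.Prime ∧ N < q), ?_, ?_⟩
  · intro q hq
    exact (mem_filter.mp hq).2
  · have h2 : ∑ i ∈ range M, f i ≤
        ∑ i ∈ range (N + 1), f i + ∑ i ∈ (range M).filter (fun q => N < q), f i := by
      rw [← sum_filter_add_sum_filter_not (range M) (fun q => N < q)]
      have : ∑ i ∈ (range M).filter (fun q => ¬ N < q), f i ≤ ∑ i ∈ range (N + 1), f i := by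
        apply sum_le_sum_of_subset_of_nonneg
        · intro i hi
          rw [mem_filter] at hi
          rw [mem_range]
          omega
        · intro i _ _
          exact hf0 i
      linarith
    have h3 : ∑ i ∈ (range M).filter (fun q => N < q), f i =
        ∑ q ∈ (range M).filter (fun q => q.Prime ∧ N < q), (1 : ℝ) / q := by
      rw [hf]
      simp only [Set.indicator_apply, Set.mem_ofPred_eq]
      rw [← sum_filter, filter_filter]
      apply sum_congr _ (fun _ _ => rfl)
      ext q
      simp only [mem_filter]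
      tauto
    rw [← h3]
    linarith

/-- Density of the numbers coprime to a block of primes. -/
lemma coprime_count (B : Finset ℕ) (hB : ∀ q ∈ B, q.Prime) (X : ℕ) :
    (((range X).filter (fun m => ∀ q ∈ B, ¬ q ∣ m)).card : ℝ) ≤
      Real.exp (-∑ q ∈ B, (1 : ℝ) / q) * X + ((∏ q ∈ B, q : ℕ) : ℝ) := by
  set a : ℕ := ∏ q ∈ B, q with ha
  have ha0 : a ≠ 0 := prod_ne_zero_iff.mpr fun q hq => (hB q hq).ne_zero
  have hsub : (range X).filter (fun m => ∀ q ∈ B, ¬ q ∣ m) ⊆
      (Ico 0 (0 + X)).filter (fun m => a.Coprime m) := by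
    intro m hm
    rw [mem_filter] at hm ⊢
    refine ⟨by simpa using hm.1, ?_⟩
    rw [ha, Nat.coprime_prod_left_iff]
    intro q hq
    exact ((hB q hq).coprime_iff_not_dvd).mpr (hm.2 q hq)
  have h1 : ((range X).filter (fun m => ∀ q ∈ B, ¬ q ∣ m)).card ≤ a.totient * (X / a + 1) :=
    (card_le_card hsub).trans (Nat.Ico_filter_coprime_le 0 X ha0)
  have h2 : (a.totient : ℝ) = a * ∏ q ∈ B, (1 - (1 : ℝ) / q) := by
    have h3 := Nat.totient_eq_mul_prod_factors a
    rw [ha, Nat.primeFactors_prod hB, ← ha] at h3
    have h4 : ((a.totient : ℚ) : ℝ) = ((a * ∏ q ∈ B, (1 - (q : ℚ)⁻¹) : ℚ) : ℝ) := by rw [h3]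
    push_cast at h4
    rw [h4]
    congr 1
    apply prod_congr rfl
    intro q _
    rw [one_div]
  have h5 : ∏ q ∈ B, (1 - (1 : ℝ) / q) ≤ Real.exp (-∑ q ∈ B, (1 : ℝ) / q) := by
    rw [← sum_neg_distrib, Real.exp_sum]
    apply prod_le_prod
    · intro q hq
      have : (1 : ℝ) ≤ q := by exact_mod_cast (hB q hq).one_lt.le
      rw [sub_nonneg, div_le_one (by linarith)]
      exact this
    · intro q _
      have := Real.add_one_le_exp (-(1 : ℝ) / q)
      have e : -(1 / (q : ℝ)) = -1 / q := by ring
      rw [e]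
      linarith [e]
  have h6 : (((range X).filter (fun m => ∀ q ∈ B, ¬ q ∣ m)).card : ℝ) ≤
      (a.totient : ℝ) * (((X / a : ℕ) : ℝ) + 1) := by exact_mod_cast h1
  have ha' : (0 : ℝ) < a := by exact_mod_cast Nat.pos_of_ne_zero ha0
  have h7 : ((X / a : ℕ) : ℝ) ≤ X / a := Nat.cast_div_le
  have h8 : (a.totient : ℝ) ≤ a := by exact_mod_cast Nat.totient_le a
  calc (((range X).filter (fun m => ∀ q ∈ B, ¬ q ∣ m)).card : ℝ)
      ≤ (a.totient : ℝ) * (((X / a : ℕ) : ℝ) + 1) := h6
    _ ≤ (a.totient : ℝ) * (X / a + 1) := by gcongr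
    _ = (a.totient : ℝ) / a * X + a.totient := by field_simp
    _ ≤ Real.exp (-∑ q ∈ B, (1 : ℝ) / q) * X + a := by
        have : (a.totient : ℝ) / a = ∏ q ∈ B, (1 - (1 : ℝ) / q) := by
          rw [h2]; field_simp
        rw [this]
        gcongr

/-- Few numbers have few prime divisors. -/
theorem few_prime_factors (k : ℕ) : ∀ (N : ℕ) (ε : ℝ), 0 < ε → ∃ C : ℝ, ∀ X : ℕ,
    (((range X).filter (fun m => (m.primeFactors.filter (fun q => N < q)).card < k)).card : ℝ) ≤
      ε * X + C := by
  induction k with
  | zero =>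
    intro N ε hε
    refine ⟨0, fun X => ?_⟩
    simp
    positivity
  | succ k ih =>
    intro N ε hε
    obtain ⟨B, hB, hΛ⟩ := exists_block N (-Real.log (ε / 2))
    have hBp : ∀ q ∈ B, q.Prime := fun q hq => (hB q hq).1
    obtain ⟨C, hC⟩ := ih (B.sup id) (ε / 2) (half_pos hε)
    refine ⟨C + ((∏ q ∈ B, q : ℕ) : ℝ) + 1, fun X => ?_⟩
    have hsub : (range X).filter
          (fun m => (m.primeFactors.filter (fun q => N < q)).card < k + 1) ⊆
        ((range X).filter (fun m => ∀ q ∈ B, ¬ q ∣ m)) ∪
          ((range X).filter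
            (fun m => (m.primeFactors.filter (fun q => B.sup id < q)).card < k)) ∪ {0} := by
      intro m hm
      rw [mem_filter] at hm
      simp only [mem_union, mem_filter, mem_singleton]
      by_contra hcon
      push Not at hcon
      obtain ⟨⟨h1, h2⟩, h3⟩ := hcon
      obtain ⟨q, hq, hqm⟩ := h1 hm.1
      have h2' := h2 hm.1
      have hins : insert q (m.primeFactors.filter (fun q => B.sup id < q)) ⊆
          m.primeFactors.filter (fun q => N < q) := by
        intro x hx
        rw [mem_insert] at hx
        rcases hx with rfl | hx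
        · rw [mem_filter, Nat.mem_primeFactors]
          exact ⟨⟨(hB x hq).1, hqm, h3⟩, (hB x hq).2⟩
        · rw [mem_filter] at hx ⊢
          refine ⟨hx.1, ?_⟩
          have h5 : q ≤ B.sup id := le_sup (f := id) hq
          have h6 := (hB q hq).2
          omega
      have hnot : q ∉ m.primeFactors.filter (fun q => B.sup id < q) := by
        intro h
        rw [mem_filter] at h
        have h5 : q ≤ B.sup id := le_sup (f := id) hq
        omega
      have h7 := card_le_card hins
      rw [card_insert_of_notMem hnot] at h7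
      omega
    have h1 := card_le_card hsub
    have h2 := card_union_le (((range X).filter (fun m => ∀ q ∈ B, ¬ q ∣ m)) ∪
          ((range X).filter
            (fun m => (m.primeFactors.filter (fun q => B.sup id < q)).card < k))) {0}
    have h3 := card_union_le ((range X).filter (fun m => ∀ q ∈ B, ¬ q ∣ m))
          ((range X).filter
            (fun m => (m.primeFactors.filter (fun q => B.sup id < q)).card < k))
    rw [card_singleton] at h2
    have h4 : ((range X).filter
          (fun m => (m.primeFactors.filter (fun q => N < q)).card < k + 1)).card ≤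
        ((range X).filter (fun m => ∀ q ∈ B, ¬ q ∣ m)).card +
          ((range X).filter
            (fun m => (m.primeFactors.filter (fun q => B.sup id < q)).card < k)).card + 1 := by
      omega
    have h5 : (((range X).filter
          (fun m => (m.primeFactors.filter (fun q => N < q)).card < k + 1)).card : ℝ) ≤
        (((range X).filter (fun m => ∀ q ∈ B, ¬ q ∣ m)).card : ℝ) +
          (((range X).filter
            (fun m => (m.primeFactors.filter (fun q => B.sup id < q)).card < k)).card : ℝ) + 1 := by
      exact_mod_cast h4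
    have h6 := coprime_count B hBp X
    have h7 := hC X
    have h8 : Real.exp (-∑ q ∈ B, (1 : ℝ) / q) ≤ ε / 2 := by
      rw [← Real.exp_log (half_pos hε)]
      apply Real.exp_le_exp.mpr
      linarith
    have h9 : Real.exp (-∑ q ∈ B, (1 : ℝ) / q) * X ≤ ε / 2 * X := by gcongr
    linarith

lemma two_pow_card_primeFactors_le (n : ℕ) (hn : n ≠ 0) :
    2 ^ n.primeFactors.card ≤ n.divisors.card := by
  rw [Nat.card_divisors hn, ← prod_const]
  apply prod_le_prod'
  intro q hq
  have := (Nat.prime_of_mem_primeFactors hq).factorization_pos_of_dvd hn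
    (Nat.dvd_of_mem_primeFactors hq)
  omega

end Pool.Agent.Lib.MP_b4205f_al.H22
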