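import Pool.Agent.Lib.MP_b4205f_al.H22.Criterion
import Pool.Agent.Lib.MP_b4205f_al.H22.Density

/-!
Pigeonhole forms of the criteria.
-/

namespace Pool.Agent.Lib.MP_b4205f_al.H22

open Finset Filter Topology

/-- The matrices `[[1, al], [0, 1]]` and `[[1, 0], [al, 1]]` of `SL(2, Q)` freely generate a free
group of rank two: the free group on two letters maps injectively. -/
def FreePair (α : ℚ) : Prop :=
  ∃ A B : Matrix.SpecialLinearGroup (Fin 2) ℚ,
    (A : Matrix (Fin 2) (Fin 2) ℚ) = !![1, α; 0, 1] ∧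
    (B : Matrix (Fin 2) (Fin 2) ℚ) = !![1, 0; α, 1] ∧
    Function.Injective (FreeGroup.lift ![A, B])

lemma FreePair.injective {α : ℚ} (h : FreePair α) :
    Function.Injective (FreeGroup.lift ![U α, L α]) := by
  obtain ⟨A, B, hA, hB, hinj⟩ := h
  have e1 : A = U α := Subtype.ext hA
  have e2 : B = L α := Subtype.ext hB
  rw [← e1, ← e2]
  exact hinj

/-- Among the signed divisors of `N > 0`, two distinct ones are congruent modulo `y` as soon as
twice the number of positive divisors exceeds `|y|`. -/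
lemma pigeon {N : ℕ} (hN : N ≠ 0) {y : ℤ} (hy : y ≠ 0)
    (h : y.natAbs < 2 * N.divisors.card) :
    ∃ v v' : ℤ, v ∣ N ∧ v' ∣ N ∧ v ≠ v' ∧ y ∣ v' - v := by
  classical
  set S : Finset (ℕ × Bool) := N.divisors ×ˢ (univ : Finset Bool) with hS
  set g : ℕ × Bool → ℤ := fun x => if x.2 then (x.1 : ℤ) else -(x.1 : ℤ) with hg
  set T : Finset ℤ := Ico 0 |y| with hT
  have hcard : T.card < S.card := by
    rw [hT, hS, card_product, Int.card_Ico, card_univ, Fintype.card_bool]
    have : (|y| - 0).toNat = y.natAbs := by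
      rw [sub_zero, Int.abs_eq_natAbs, Int.toNat_natCast]
    rw [this]
    omega
  have hmaps : Set.MapsTo (fun x => g x % y) S T := by
    intro x _
    simp only [hT, coe_Ico, Set.mem_Ico]
    exact ⟨Int.emod_nonneg _ hy, Int.emod_lt_abs _ hy⟩
  obtain ⟨x, hx, x', hx', hne, heq⟩ := exists_ne_map_eq_of_card_lt_of_maps_to hcard hmaps
  have hdvd : ∀ x ∈ S, g x ∣ (N : ℤ) ∧ 0 < x.1 := by
    intro x hx
    rw [hS, mem_product, Nat.mem_divisors] at hx
    refine ⟨?_, Nat.pos_of_ne_zero ?_⟩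
    · rw [hg]
      dsimp only
      split
      · exact_mod_cast hx.1.1
      · rw [neg_dvd]; exact_mod_cast hx.1.1
    · intro h0
      rw [h0] at hx
      exact hN (zero_dvd_iff.mp hx.1.1)
  refine ⟨g x, g x', (hdvd x hx).1, (hdvd x' hx').1, ?_, ?_⟩
  · intro hgg
    apply hne
    have p1 := (hdvd x hx).2
    have p2 := (hdvd x' hx').2
    rw [hg] at hgg
    dsimp only at hgg
    rcases x with ⟨a, b⟩
    rcases x' with ⟨a', b'⟩
    cases b <;> cases b' <;> simp at hgg p1 p2 ⊢ <;> omega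
  · exact Int.ModEq.dvd (show g x ≡ g x' [ZMOD y] from heq)

/-- First criterion. -/
theorem criterion_one {p n : ℕ} (hp : 0 < p) (hn : 0 < n) (h : FreePair ((p : ℚ) / n)) :
    2 * (n ^ 2).divisors.card ≤ p ^ 2 := by
  by_contra hlt
  push Not at hlt
  have hp2 : ((p : ℤ) ^ 2) ≠ 0 := by positivity
  obtain ⟨d, d', hd, hd', hne, hdd⟩ := pigeon (N := n ^ 2) (by positivity) hp2
    (by rw [Int.natAbs_pow, Int.natAbs_natCast]; exact hlt)
  obtain ⟨k, hk⟩ := hd
  obtain ⟨k', hk'⟩ := hd'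
  obtain ⟨b, hb⟩ := hdd
  push_cast at hk hk'
  have := not_free_level1 (p := p) (n := n) (by positivity) hk hk' hb hne
  exact this (by simpa using h.injective)

/-- Second criterion. -/
theorem criterion_two {p n : ℕ} (hn : 0 < n) {y M : ℤ} (hy : y ≠ 0) (hM : M ≠ 0)
    (hr : (n : ℤ) ^ 2 = y + p ^ 2 * M) (h : FreePair ((p : ℚ) / n)) :
    2 * M.natAbs.divisors.card ≤ y.natAbs := by
  by_contra hlt
  push Not at hlt
  obtain ⟨v, v', hv, hv', hne, hvv⟩ := pigeon (N := M.natAbs) (Int.natAbs_ne_zero.mpr hM) hy hlt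
  rw [Int.dvd_natAbs] at hv hv'
  obtain ⟨m, hm⟩ := hv
  obtain ⟨m', hm'⟩ := hv'
  obtain ⟨g, hg⟩ := hvv
  have := not_free_level2 (p := p) (n := n) (by positivity) hM hr hm hm' hg hne
  exact this (by simpa using h.injective)

end Pool.Agent.Lib.MP_b4205f_al.H22
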